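import Pool.Agent.Lib.MP_1a91b9_ntX.PX.Sha
import Pool.Agent.Lib.MP_1a91b9_ntT.TG.ShaD

/-!
# Descent of the `ℓ`-primary part of the Tate-Shafarevich group in Galois extensions
-/

set_option autoImplicit false

namespace Pool.Agent.Lib.MP_1a91b9_ntX.PX

open WeierstrassCurve NumberField IsDedekindDomain Pool.Agent.Lib.MP_1a91b9_ntT
open Pool.Agent.Lib.MP_1a91b9_ntT.S9 Pool.Agent.Lib.MP_1a91b9_ntT.S5
open Pool.Agent.Lib.MP_1a91b9_ntT.CT
open Pool.Agent.Lib.MP_1a91b9_ntT3.S9 (ShaP)
open scoped Classical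

universe u

variable {N N' : Type u} [Field N] [NumberField N] [Field N'] [NumberField N'] [Algebra N N']

/-- The `ℓ`-primary part of the Tate-Shafarevich group of `W` over `N` is zero if that of `E`
over the Galois extension `N'` is, and the order of `E(N')` is prime to `ℓ`. -/
theorem sha_down_gal {ℓ : ℕ} [hℓ : Fact ℓ.Prime] [Algebra K N'] [IsGalois N N']
    {W' : WeierstrassCurve N'} (hS : Subsingleton (ShaP ℓ W'))
    (hf : Finite W'.toAffine.Point) (ho : (Nat.card W'.toAffine.Point).Coprime ℓ)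
    (W : WeierstrassCurve N) (C : VariableChange N') (hC : C • W.baseChange N' = W') :
    Subsingleton (ShaP ℓ W) := by
  obtain ⟨h4, h5⟩ := px_pts hf W C hC
  rw [← h5] at ho
  have hkill : ∀ R : Pts W N', Nat.card (Pts W N') • R = 0 := fun R => card_nsmul_eq_zero'
  have hfin : FiniteDimensional N N' := Module.Finite.of_restrictScalars_finite ℚ N N'
  have halg : Algebra.IsAlgebraic N N' := Algebra.IsAlgebraic.of_finite N N'
  have hcl : IsAlgClosure N (AlgebraicClosure N') :=
    IsAlgClosure.ofAlgebraic N N' (AlgebraicClosure N')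
  obtain ⟨j⟩ : Nonempty (AlgebraicClosure N ≃ₐ[N] AlgebraicClosure N') :=
    ⟨IsAlgClosure.equiv N (AlgebraicClosure N) (AlgebraicClosure N')⟩
  have key : ∀ n : ℕ, ∀ y : shaCoc W ⧸ (cob W).addSubgroupOf (shaCoc W),
      ℓ ^ n • y = 0 → y = 0 := by
    intro n y hy
    obtain ⟨⟨c, hc⟩, rfl⟩ := QuotientAddGroup.mk_surjective y
    rw [← QuotientAddGroup.mk_nsmul, QuotientAddGroup.eq_zero_iff,
      AddSubgroup.mem_addSubgroupOf] at hy
    rw [QuotientAddGroup.eq_zero_iff, AddSubgroup.mem_addSubgroupOf]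
    have hy' : ℓ ^ n • c ∈ cob W := hy
    have hcc : c ∈ coc W := hc.1.1
    have h1 : res hC j c ∈ coc W' := res_coc hC j c hcc
    have h2 : ℓ ^ n • res hC j c ∈ cob W' := by
      rw [← res_nsmul]
      exact res_cob hC j _ hy'
    have h3 : ∀ w : HeightOneSpectrum (𝓞 N'),
        res hC j c ∈ trivOver W' (w.adicCompletion N') := by
      intro w
      obtain ⟨φ, hφ, -⟩ := exists_compMap N w
      have : CharZero ((below N w).adicCompletion N) :=
        charZero_of_injective_algebraMap (algebraMap N ((below N w).adicCompletion N)).injective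
      let _ : Algebra ((below N w).adicCompletion N) (w.adicCompletion N') := φ.toAlgebra
      let _ : Algebra N (w.adicCompletion N') :=
        ((algebraMap N' (w.adicCompletion N')).comp (algebraMap N N')).toAlgebra
      have : IsScalarTower N ((below N w).adicCompletion N) (w.adicCompletion N') :=
        IsScalarTower.of_algebraMap_eq fun x => (hφ x).symm
      have : IsScalarTower N N' (w.adicCompletion N') :=
        IsScalarTower.of_algebraMap_eq fun x => rfl
      have hcv : c ∈ trivOver W ((below N w).adicCompletion N) := by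
        have h : c ∈ ⨅ v : HeightOneSpectrum (𝓞 N), trivOver W (v.adicCompletion N) := hc.1.2
        exact AddSubgroup.mem_iInf.1 h (below N w)
      exact res_triv hC j c hcv
    have hsha : res hC j c ∈ shaCoc W' :=
      ⟨⟨h1, AddSubgroup.mem_iInf.2 h3⟩, AddSubgroup.mem_iInf.2 fun v =>
        PL.triv_inf W' _ (PL.coc_one W' _ h1) v⟩
    have h4 : res hC j c ∈ cob W' := by
      obtain ⟨z, hz⟩ : ∃ z : Sha W', z = QuotientAddGroup.mk (⟨res hC j c, hsha⟩ :
        shaCoc W') := ⟨_, rfl⟩
      have hz0 : ℓ ^ n • z = 0 := by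
        rw [hz, ← QuotientAddGroup.mk_nsmul, QuotientAddGroup.eq_zero_iff,
          AddSubgroup.mem_addSubgroupOf]
        exact h2
      have h6 : (⟨z, ⟨n, hz0⟩⟩ : ShaP ℓ W') = 0 := hS.elim _ _
      have h7 : z = 0 := congrArg Subtype.val h6
      rw [hz, QuotientAddGroup.eq_zero_iff, AddSubgroup.mem_addSubgroupOf] at h7
      exact h7
    obtain ⟨P, hP⟩ := cob_res hC j c h4
    exact TG.descend_gal W j _ (ℓ ^ n) hkill (Nat.Coprime.pow_right n ho) c hcc hy' P hP
  have h1 : ∀ x : AddCommGroup.primaryComponent (Sha W) ℓ, x = 0 := by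
    rintro ⟨x, n, hn⟩
    exact Subtype.ext (key n x hn)
  exact ⟨fun x y => (h1 x).trans (h1 y).symm⟩

end Pool.Agent.Lib.MP_1a91b9_ntX.PX
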