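import Pool.Agent.Lib.MP_1a91b9_ntX.PX.Main
import Pool.Agent.Lib.MP_1a91b9_ntX.PX.ShaD
import Pool.Agent.Lib.MP_1a91b9_ntX.TG.Top
import Pool.Agent.Lib.MP_1a91b9_ntT.TG.GoodK

/-!
# The hypotheses of the `ℓ`-part of the formula over the subfields of `L`
-/

set_option autoImplicit false

namespace Pool.Agent.Lib.MP_1a91b9_ntX.PX

open NumberField IsDedekindDomain WeierstrassCurve Module IntermediateField Polynomial
  Pool.Agent.Lib.MP_1a91b9_ntT
open Pool.Agent.Lib.MP_1a91b9_ntX.DB Pool.Agent.Lib.MP_1a91b9_ntX.DX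
open Pool.Agent.Lib.MP_1a91b9_ntX.TG
open Pool.Agent.Lib.MP_1a91b9_ntT.S5 (below mem_below)
open Pool.Agent.Lib.MP_1a91b9_ntT.PL (Concl)
open Pool.Agent.Lib.MP_1a91b9_ntT.TG (exists_comp cop_powN unrL_down)

universe u

variable [DD] [HC]

theorem nag_up_pow {ℓ : ℕ} (hℓ : ℓ.Prime) {μ : 𝓞 K} {F₀ M : Type u} [Field F₀] [NumberField F₀]
    [Algebra K F₀] [Field M] [NumberField M] [Algebra K M] [Algebra F₀ M] [IsScalarTower K F₀ M]
    [IsGalois F₀ M] (n : ℕ) (hM : finrank F₀ M = ℓ ^ n) (h : NaG ℓ μ F₀) : NaG ℓ μ M := by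
  intro w hw h3
  rw [psi_up (F := F₀) w]
  refine cop_powN hℓ (h (below F₀ w) ?_ ?_) (n := n) ?_
  · rwa [up_mem_below]
  · rwa [up_mem_below]
  · rw [← hM]
    exact (MP_1a91b9_ntT3.EF.ef_dvd (below F₀ w) w rfl).1

theorem galois_sub {μ : 𝓞 K} (N F F₀ L' : Type) [Field N] [NumberField N] [Algebra K N]
    [Field F] [NumberField F] [Algebra K F] [Field F₀] [NumberField F₀] [Algebra K F₀] [Field L']
    [NumberField L'] [Algebra K L'] [Algebra N F] [Algebra F₀ F] [Algebra F₀ L']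
    [IsScalarTower K N F] [IsScalarTower K F₀ F] [IsScalarTower K F₀ L'] [IsGalois K L']
    [DecidableEq L'] {T : Pt L'} (hT : AbT μ K T)
    (hgen : IntermediateField.adjoin N (Set.range (algebraMap F₀ F)) = ⊤) : IsGalois N F := by
  classical
  obtain ⟨L, _, _, _, _, _, _, t1, t2, t3, t4, hG, hL⟩ := exists_comp N F F₀ L' hgen
  exact galois_of_abT (hT.up hL)

section
variable {ℓ : ℕ} [hℓ : Fact ℓ.Prime] (hD : ¬ (ℓ : ℤ) ∣ 6 * DD.D) (F₀ L M : Type) [Field F₀]
  [NumberField F₀]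
  [Algebra K F₀] (hB : ∀ (F : Type) [Field F] [NumberField F] [Algebra K F],
    Cpy F₀ F → BaseG ℓ F) [Field L] [NumberField L] [Field M] [NumberField M] [Algebra K L]
  [Algebra K M] [Algebra F₀ L] [Algebra L M] [Algebra F₀ M] [IsScalarTower K F₀ L]
  [IsScalarTower K F₀ M] [IsScalarTower F₀ L M] [IsGalois F₀ M] (n : ℕ)
  (hM : finrank F₀ M = ℓ ^ n) (hL : RamG ℓ F₀ L)
include hD hB hM hL

/-- The subfields of `L` which contain `K` satisfy the hypotheses of the `ℓ`-part. -/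
theorem goodX_of_K {μ : 𝓞 K} (hμ : ¬ ℓ ∣ nAb μ) (hna : NaG ℓ μ F₀)
    (L' : Type) [Field L'] [NumberField L'] [Algebra K L']
    [Algebra F₀ L'] [IsScalarTower K F₀ L'] [IsGalois K L'] [DecidableEq L'] {T : Pt L'}
    (hT : AbT μ K T) (N : Type) [Field N] [NumberField N] [Algebra K N] [Algebra N L]
    [IsScalarTower K N L] : GoodX ℓ N := by
  obtain ⟨F, _, _, _, _, _, _, t1, t2, t3, t4, t5, hgen⟩ := exists_NF F₀ L N
  have hT' := tower_sub hℓ.out F₀ L M n hM hL F
  have hg := goodX_tower hD (fun F _ _ _ h => hB F h) F hT'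
  have h3 := e2_tower hℓ.out (fun F _ _ _ h => hB F h) hT'
  have hu := unr_tower hℓ.out (fun F _ _ _ h => hB F h) hT'
  -- the places above `μ`
  have hnM : NaG ℓ μ M := nag_up_pow hℓ.out n hM hna
  let aFM : Algebra F M := ((algebraMap L M).comp (algebraMap F L)).toAlgebra
  have tKLM : ∀ x : K, algebraMap L M (algebraMap K L x) = algebraMap K M x := by
    intro x
    rw [IsScalarTower.algebraMap_apply K F₀ L, ← IsScalarTower.algebraMap_apply F₀ L M,
      ← IsScalarTower.algebraMap_apply K F₀ M]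
  have t6 : IsScalarTower K F M :=
    IsScalarTower.of_algebraMap_eq (R := K) (S := F) (A := M) fun x => by
      change algebraMap K M x = algebraMap L M (algebraMap F L (algebraMap K F x))
      rw [← IsScalarTower.algebraMap_apply K F L, tKLM]
  have hnF : NaG ℓ μ F := hnM.down
  have hGal : IsGalois N F := galois_sub N F F₀ L' hT hgen
  have hC : (1 : VariableChange F) • (MP_1a91b9_ntX.E N).baseChange F = MP_1a91b9_ntX.E F := by
    rw [one_smul]
    exact E_map (algebraMap N F)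
  obtain ⟨hfin, hdvd⟩ := pts_down (N := N) (N' := F) hg.fin (MP_1a91b9_ntX.E N) 1 hC
  exact ⟨hD, unrL_down hℓ.out.ne_zero hg.unr,
    unit_sub hℓ.out hD hμ N F F₀ L' hT hgen h3 hu hnF hg.unit,
    hg.nice.down, hfin, Nat.Coprime.coprime_dvd_left hdvd hg.cop,
    sha_down_gal hg.sha hg.fin hg.cop (MP_1a91b9_ntX.E N) 1 hC⟩

/-- What is needed for the `ℓ`-part over the subfields of `L`. -/
theorem datP_G {μ : 𝓞 K} (hμ : ¬ ℓ ∣ nAb μ) (hna : NaG ℓ μ F₀)
    (L' : Type) [Field L'] [NumberField L'] [Algebra K L']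
    [Algebra F₀ L'] [IsScalarTower K F₀ L'] [IsGalois K L'] [DecidableEq L'] {T : Pt L'}
    (hT : AbT μ K T) (N : Type) [Field N] [NumberField N] [Algebra N L] : DatP ℓ N := by
  rcases exists_sub L N with ⟨aKN, hst⟩ | ⟨F, _, _, _, _, _, t1, t2, h2, hn⟩
  · exact Or.inl ⟨aKN, goodX_of_K hD F₀ L M hB n hM hL hμ hna L' hT N⟩
  · exact Or.inr ⟨F, inferInstance, inferInstance, inferInstance, inferInstance,
      h2, hn, goodX_of_K hD F₀ L M hB n hM hL hμ hna L' hT F⟩

end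

section
variable {μ c : 𝓞 K} {F₀ L₀ : Type} [Field F₀] [NumberField F₀] [Algebra K F₀] [Field L₀]
  [NumberField L₀] [Algebra K L₀] [Algebra F₀ L₀] [IsScalarTower K F₀ L₀] [DecidableEq L₀]
  {J : Pt L₀}

/-- **The conclusion for one prime number: the `ℓ`-part of the formula.** -/
theorem conclP_ell [IsGalois K L₀] (hJ : AbT μ K J) (hfr : LF.Free6 DD.D)
    (hc : ((6 * DD.D : ℤ) : 𝓞 K) ∣ c) {ℓ : ℕ} [hℓ : Fact ℓ.Prime] (h : GoodEll μ c ℓ F₀)
    (N L M : Type) [Field N] [NumberField N] [Field L]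
    [NumberField L] [Field M] [NumberField M] [Algebra N L] [Algebra F₀ L] [Algebra L M]
    [Algebra F₀ M] [IsScalarTower F₀ L M] [IsGalois F₀ M] (n : ℕ) (hM : finrank F₀ M = ℓ ^ n)
    (hL : RamC ℓ DD.D c F₀ L) (W : WeierstrassCurve N) (C : VariableChange L)
    (hC : C • W.baseChange L = MP_1a91b9_ntX.E L)
    (hW : ¬ (finrank K F₀).Coprime 6 →
      (∃ D : VariableChange N, D • W = LF.crv ((DD.D : ℤ) : N)) ∨
      ∃ D : VariableChange N, D • W = LF.crv ((-27 * DD.D : ℤ) : N)) : Concl ℓ W := by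
  let aKL : Algebra K L := ((algebraMap F₀ L).comp (algebraMap K F₀)).toAlgebra
  let aKM : Algebra K M := ((algebraMap F₀ M).comp (algebraMap K F₀)).toAlgebra
  have t1 : IsScalarTower K F₀ L := IsScalarTower.of_algebraMap_eq fun x => rfl
  have t2 : IsScalarTower K F₀ M := IsScalarTower.of_algebraMap_eq fun x => rfl
  have hRG := ramG_of_ramC h hc hL
  have h1 := datP_G h.good F₀ L M h.base n hM hRG h.mu h.nag L₀ hJ N
  exact prime_of hfr h1 W (tw_cases N L M h.prime h.good n hM W C hC hW)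

end

end Pool.Agent.Lib.MP_1a91b9_ntX.PX
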