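import Pool.Agent.Lib.MP_1a91b9_ntX.PL.TmH
import Pool.Agent.Lib.MP_1a91b9_ntX.PL.NmC

/-!
# The Tamagawa numbers and the periods of the curves `y² = x³ + D` and `y² = x³ - 27 D`
-/

set_option autoImplicit false

namespace Pool.Agent.Lib.MP_1a91b9_ntX.PX

open NumberField IsDedekindDomain WeierstrassCurve Pool.Agent.Lib.MP_1a91b9_nt
  Pool.Agent.Lib.MP_1a91b9_ntT Pool.Agent.Lib.MP_1a91b9_ntX.LF Pool.Agent.Lib.MP_1a91b9_ntT.S9
open Pool.Agent.Lib.MP_1a91b9_ntT.PL (Ab)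
open scoped Classical

universe u

variable [DD]

private theorem Iface_prime {ℓ : ℕ} (hℓ : ℓ.Prime) (hg : ¬ (ℓ : ℤ) ∣ 6 * DD.D) {d : ℤ}
    (hd : d = DD.D ∨ d = -27 * DD.D) : d ≠ 0 ∧ 5 ≤ ℓ ∧ ¬ (ℓ : ℤ) ∣ 6 * d := by
  have hp : Prime (ℓ : ℤ) := Nat.prime_iff_prime_int.1 hℓ
  have h0 : DD.D ≠ 0 := DD.ne
  have h2 : ¬ (ℓ : ℤ) ∣ 2 := fun h => hg (Dvd.dvd.trans h ⟨3 * DD.D, by ring⟩)
  have h3 : ¬ (ℓ : ℤ) ∣ 3 := fun h => hg (Dvd.dvd.trans h ⟨2 * DD.D, by ring⟩)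
  have hD : ¬ (ℓ : ℤ) ∣ DD.D := fun h => hg (Dvd.dvd.mul_left h 6)
  have h5 : 5 ≤ ℓ := by
    by_contra hlt
    have h4 := hℓ.two_le
    have h6 : ℓ = 2 ∨ ℓ = 3 ∨ ℓ = 4 := by omega
    rcases h6 with h | h | h
    · exact h2 (by rw [h]; norm_num)
    · exact h3 (by rw [h]; norm_num)
    · rw [h] at hℓ
      revert hℓ
      decide
  rcases hd with rfl | rfl
  · exact ⟨h0, h5, hg⟩
  · refine ⟨mul_ne_zero (by norm_num) h0, h5, fun h => ?_⟩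
    have e : (6 : ℤ) * (-27 * DD.D) = -(2 * (3 * (3 * (3 * (3 * DD.D))))) := by ring
    rw [e, dvd_neg] at h
    rcases hp.dvd_or_dvd h with h | h
    · exact h2 h
    rcases hp.dvd_or_dvd h with h | h
    · exact h3 h
    rcases hp.dvd_or_dvd h with h | h
    · exact h3 h
    rcases hp.dvd_or_dvd h with h | h
    · exact h3 h
    rcases hp.dvd_or_dvd h with h | h
    · exact h3 h
    · exact hD h

/-- The Tamagawa numbers. -/
theorem tam_all {ℓ : ℕ} (hℓ : ℓ.Prime) (hg : ¬ (ℓ : ℤ) ∣ 6 * DD.D) {N : Type u} [Field N]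
    [NumberField N] (d : ℤ) (hd : d = DD.D ∨ d = -27 * DD.D) (W : WeierstrassCurve N)
    (C : VariableChange N) (hC : C • W = crv (d : N)) (v : HeightOneSpectrum (𝓞 N)) :
    (tam W v).Coprime ℓ := by
  obtain ⟨h0, h5, -⟩ := Iface_prime hℓ hg hd
  exact PL.tam_cop5 (Int.cast_ne_zero.2 h0) hC hℓ h5 v

/-- The period. -/
theorem period_all {ℓ : ℕ} (hℓ : ℓ.Prime) (hg : ¬ (ℓ : ℤ) ∣ 6 * DD.D) {N : Type u} [Field N]
    [NumberField N] (d : ℤ) (hd : d = DD.D ∨ d = -27 * DD.D) (W : WeierstrassCurve N)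
    (C : VariableChange N) (hC : C • W = crv (d : N)) :
    period W ≠ 0 ∧ ∀ A : ValuationSubring ℂ, Ab ℓ A →
      A.valuation ((period W : ℝ) : ℂ) = A.valuation Om ^ Module.finrank ℚ N := by
  obtain ⟨h0, -, h6⟩ := Iface_prime hℓ hg hd
  exact PL.period_crv h0 hC hℓ h6

end Pool.Agent.Lib.MP_1a91b9_ntX.PX
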