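import Pool.Agent.Lib.MP_1a91b9_ntX.PX.Form
import Pool.Agent.Lib.MP_1a91b9_ntX.PX.Val
import Pool.Agent.Lib.MP_1a91b9_ntX.PX.Iface
import Pool.Agent.Lib.MP_1a91b9_ntX.PX.Gal
import Pool.Agent.Lib.MP_1a91b9_ntX.TG.Tower
import Pool.Agent.Lib.MP_1a91b9_ntX.RG.Fin
import Pool.Agent.Lib.MP_1a91b9_ntX.LF.Cls
import Pool.Agent.Lib.MP_1a91b9_ntX.LF.Nice
import Pool.Agent.Lib.MP_1a91b9_ntT.PL.Main

/-!
# The `ℓ`-part of the conjecture of Birch and Swinnerton-Dyer: the fields `N ⊆ F`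

`F` contains `K`, and `N = F` or `F = N(√-3)`.
-/

set_option autoImplicit false

namespace Pool.Agent.Lib.MP_1a91b9_ntX.PX

open NumberField IsDedekindDomain WeierstrassCurve Module Pool.Agent.Lib.MP_1a91b9_nt
  Pool.Agent.Lib.MP_1a91b9_ntT Pool.Agent.Lib.MP_1a91b9_ntX.LF Pool.Agent.Lib.MP_1a91b9_ntT.S9
open Pool.Agent.Lib.MP_1a91b9_ntT.PL (Ab Concl card_sha_one exists_coord coprime_discr)
open Pool.Agent.Lib.MP_1a91b9_ntT3.S9 (ShaP FormulaQ)
open Pool.Agent.Lib.MP_1a91b9_ntX.AN (UnitProp)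
open Pool.Agent.Lib.MP_1a91b9_ntX.RG (GalPs)
open Pool.Agent.Lib.MP_1a91b9_ntX.TG (GoodX)
open Pool.Agent.Lib.MP_1a91b9_ntT.TW (om_of_sqrt)
open scoped Classical

universe u

/-- the Galois action on the torsion points of annihilator `(M)` is by the values of the Hecke
character -/
theorem galAll [DD] [HC] : ∀ M : ℕ, 0 < M → (HC.f : 𝓞 K) ∣ (M : 𝓞 K) →
    ((6 * DD.D : ℤ) : 𝓞 K) ∣ (M : 𝓞 K) → GalPs M :=
  fun _ hM _ _ => galPs hM

private theorem bc_self {F : Type*} [Field F] (W : WeierstrassCurve F) :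
    W.baseChange F = W := by
  show W.map (algebraMap F F) = W
  rw [Algebra.algebraMap_self]
  exact W.map_id

section
variable [DD] [HC] {ℓ : ℕ} [hℓ : Fact ℓ.Prime]

theorem ell_ne_two (hg : ¬ (ℓ : ℤ) ∣ 6 * DD.D) : ℓ ≠ 2 := by
  rintro rfl
  exact hg ⟨3 * DD.D, by push_cast; ring⟩

/-- The conclusion over `F`. -/
theorem concl_F (hfr : Free6 DD.D) {F : Type u} [Field F] [NumberField F]
    [Algebra K F] (h : GoodX ℓ F) (W : WeierstrassCurve F) (D : VariableChange F)
    (hD : D • W = MP_1a91b9_ntX.E F) : Concl ℓ W := by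
  have hD' : D • W = crv ((DD.D : ℤ) : F) := hD
  have hC : D • W.baseChange F = MP_1a91b9_ntX.E F := by rw [bc_self]; exact hD
  obtain ⟨hfW, hdvd⟩ := pts_down (N := F) (N' := F) h.fin W D hC
  have hcW : (Nat.card W.toAffine.Point).Coprime ℓ := Nat.Coprime.coprime_dvd_left hdvd h.cop
  have hS : Subsingleton (ShaP ℓ W) :=
    sha_down (N := F) (N' := F) (ell_ne_two h.good) h.sha 1 1 (by rw [one_pow, map_one])
      (fun z => ⟨z, 0, by simp⟩) W D hC
  have hdisc := coprime_discr hℓ.out F F h.unr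
  have htam : ∀ v, (tam W v).Coprime ℓ :=
    tam_all hℓ.out h.good (N := F) DD.D (Or.inl rfl) W D hD'
  refine ⟨fun g hg hgW => ?_, card_sha_one hS, htam, hfW, hcW⟩
  exact formula (lvalK h.unit h.nice hfr W D hD') (RG.rat_K galAll h.nice hfr W D hD')
    (period_all hℓ.out h.good DD.D (Or.inl rfl) W D hD') htam hdisc hcW hS hg hgW

/-- The conclusion over `N`, `F = N(√-3)`. -/
theorem concl_N (hfr : Free6 DD.D) {N F : Type u} [Field N] [NumberField N]
    [Field F] [NumberField F] [Algebra N F] [Algebra K F] (hL : finrank N F = 2)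
    (hn : ∀ x : N, algebraMap N F x ≠ algebraMap K F om) (h : GoodX ℓ F) (W : WeierstrassCurve N)
    (hW : (∃ D : VariableChange N, D • W = crv ((DD.D : ℤ) : N)) ∨
      ∃ D : VariableChange N, D • W = crv ((-27 * DD.D : ℤ) : N)) : Concl ℓ W := by
  have hN : Nice N := Nice.down h.nice
  have hz : (2 * algebraMap K F om + 1) ^ 2 = -3 := om_of_sqrt _ rfl
  have hz' : ∀ a : N, algebraMap N F a ≠ 2 * algebraMap K F om + 1 := by
    intro a ha
    apply hn ((a - 1) / 2)
    rw [map_div₀, map_sub, map_one, map_ofNat, ha]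
    ring
  have hgen := exists_coord hL _ hz'
  have hdisc := coprime_discr hℓ.out N F h.unr
  obtain ⟨d, D, C, hd, hD, hC⟩ : ∃ (d : ℤ) (D : VariableChange N) (C : VariableChange F),
      (d = DD.D ∨ d = -27 * DD.D) ∧ D • W = crv (d : N) ∧
        C • W.baseChange F = MP_1a91b9_ntX.E F := by
    rcases hW with ⟨D, hD⟩ | ⟨D, hD⟩
    · refine ⟨DD.D, D, D.map (algebraMap N F), Or.inl rfl, hD, ?_⟩
      have e1 : (D.map (algebraMap N F)) • W.baseChange F = (D • W).map (algebraMap N F) :=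
        (WeierstrassCurve.map_variableChange _ _ _)
      rw [e1, hD, crv_map, map_intCast]
      rfl
    · obtain ⟨C', hC'⟩ := crv_neg27 (F := F) ((DD.D : ℤ) : F)
      refine ⟨-27 * DD.D, D, C'⁻¹ * D.map (algebraMap N F), Or.inr rfl, hD, ?_⟩
      have e1 : (D.map (algebraMap N F)) • W.baseChange F = (D • W).map (algebraMap N F) :=
        (WeierstrassCurve.map_variableChange _ _ _)
      have e2 : (((-27 * DD.D : ℤ)) : F) = -27 * ((DD.D : ℤ) : F) := by push_cast; rfl
      rw [mul_smul, e1, hD, crv_map, map_intCast, e2, ← hC', inv_smul_smul]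
      rfl
  obtain ⟨hfW, hdvd⟩ := pts_down (N := N) (N' := F) h.fin W C hC
  have hcW : (Nat.card W.toAffine.Point).Coprime ℓ := Nat.Coprime.coprime_dvd_left hdvd h.cop
  have hS : Subsingleton (ShaP ℓ W) :=
    sha_down (N := N) (N' := F) (ell_ne_two h.good) h.sha (2 * algebraMap K F om + 1) (-3)
      (by rw [hz, map_neg, map_ofNat]) hgen W C hC
  have htam : ∀ v, (tam W v).Coprime ℓ :=
    tam_all hℓ.out h.good (N := N) d hd W D hD
  refine ⟨fun g hg hgW => ?_, card_sha_one hS, htam, hfW, hcW⟩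
  exact formula (lvalN hL hn h.unit hN hfr d hd W D hD) (RG.rat_N galAll hL hn hN hfr d hd W D hD)
    (period_all hℓ.out h.good d hd W D hD) htam hdisc hcW hS hg hgW

end

/-- What is needed about the field `N`. -/
def DatP [DD] [HC] (ℓ : ℕ) [Fact ℓ.Prime] (N : Type u) [Field N] [NumberField N] : Prop :=
  (∃ _ : Algebra K N, GoodX ℓ N) ∨
  ∃ (F : Type u) (_ : Field F) (_ : NumberField F) (_ : Algebra N F) (_ : Algebra K F),
    finrank N F = 2 ∧ (∀ x : N, algebraMap N F x ≠ algebraMap K F om) ∧ GoodX ℓ F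

/-- The `ℓ`-part for the curves over `N` which are isomorphic over `N` to `y² = x³ + D` or
`y² = x³ - 27 D`. -/
theorem prime_of [DD] [HC] {ℓ : ℕ} [hℓ : Fact ℓ.Prime] (hfr : Free6 DD.D)
    {N : Type u} [Field N] [NumberField N] (hdat : DatP ℓ N) (W : WeierstrassCurve N)
    (hW : (∃ D : VariableChange N, D • W = crv ((DD.D : ℤ) : N)) ∨
      ∃ D : VariableChange N, D • W = crv ((-27 * DD.D : ℤ) : N)) : Concl ℓ W := by
  rcases hdat with ⟨_, h⟩ | ⟨F, _, _, _, _, hL, hn, h⟩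
  · rcases hW with ⟨D, hD⟩ | ⟨D, hD⟩
    · exact concl_F hfr h W D hD
    · obtain ⟨C', hC'⟩ := crv_neg27 (F := N) ((DD.D : ℤ) : N)
      have e2 : (((-27 * DD.D : ℤ)) : N) = -27 * ((DD.D : ℤ) : N) := by push_cast; rfl
      exact concl_F hfr h W (C'⁻¹ * D) (by
        rw [mul_smul, hD, e2, ← hC', inv_smul_smul]
        rfl)
  · exact concl_N hfr hL hn h W hW

/-- The `ℓ`-part for the curves over `N` which become isomorphic to `E` inside an extension `M` of
`K` of degree prime to six. -/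
theorem prime_part [DD] [HC] {ℓ : ℕ} [hℓ : Fact ℓ.Prime] (hfr : Free6 DD.D)
    (N L M : Type u) [Field N] [NumberField N] [Field L] [NumberField L]
    [Field M] [NumberField M] [Algebra N L] [Algebra L M] [Algebra K M]
    (h2 : ¬ 2 ∣ finrank K M) (h3 : ¬ 3 ∣ finrank K M)
    (hdat : DatP ℓ N) (W : WeierstrassCurve N) (C : VariableChange L)
    (hC : C • (W.baseChange L) = MP_1a91b9_ntX.E L) : Concl ℓ W := by
  exact prime_of hfr hdat W (class_six N L M h2 h3 DD.D DD.ne W C hC)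

end Pool.Agent.Lib.MP_1a91b9_ntX.PX
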